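import Mathlib
import Pool.Agent.R608.EllOne
import Pool.Agent.R608.MunnTree

/-!
# The set of closed ideals of `ℓ₁(S)` with simple quotient is not `G_δ`
-/

set_option autoImplicit false

open Set Filter Topology
open Pool.Agent.R608.EllOne Pool.Agent.R608.MunnTree

namespace Pool.Agent.Results.MP_2e14e4_lc.SimpleNotGdelta

noncomputable section

/-! ## The Banach algebra `ℓ₁(S)` -/

/-- The Banach space `ℓ₁(S)`, where `S` is the free semigroup on countably many generators. -/
abbrev P : Type := L1 (FreeSemigroup ℕ)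

/-- The convolution product `f * g = ∑ u, ∑ v, f u * g v * δ (u * v)` of `ℓ₁(S)`. -/
def prod (f g : P) : P := ∑' u, ∑' v, (f u * g v) • dl (u * v)

/-- The convolution product as a bounded bilinear map. -/
def conv : P →L[ℂ] P →L[ℂ] P :=
  bil (fun u v => dl (u * v)) fun u v => (norm_dl (u * v)).le

lemma conv_eq_prod (f g : P) : conv f g = prod f g := by
  unfold conv prod
  rw [bil_apply]
  refine tsum_congr fun u => ?_
  rw [← (summable_lift _ (fun v => (norm_dl (u * v)).le) g).tsum_const_smul (f u)]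
  exact tsum_congr fun v => smul_smul _ _ _

lemma conv_dl (u v : FreeSemigroup ℕ) : conv (dl u) (dl v) = dl (u * v) :=
  bil_dl _ _ u v

lemma conv_assoc (f g e : P) : conv (conv f g) e = conv f (conv g e) := by
  refine bil_assoc _ _ ?_ f g e
  intro u v w
  rw [bil_dl, bil_dl, mul_assoc]

lemma norm_conv_le (f g : P) : ‖conv f g‖ ≤ ‖f‖ * ‖g‖ := norm_bil_le _ _ f g

/-! ## Closed ideals and the Wijsman topology -/

/-- `K` is a closed two-sided ideal of the Banach algebra `ℓ₁(S)`. -/
structure IsClosedIdeal (K : Submodule ℂ P) : Prop where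
  closed : IsClosed (K : Set P)
  mul_left : ∀ a x : P, x ∈ K → prod a x ∈ K
  mul_right : ∀ a x : P, x ∈ K → prod x a ∈ K

/-- The set `Ideal(P)` of closed two-sided ideals. -/
def IdealP : Type := {K : Submodule ℂ P // IsClosedIdeal K}

/-- The subspace underlying an element of `Ideal(P)`. -/
def sub (K : IdealP) : Submodule ℂ P := K.1

/-- The distance from `x` to `K`. -/
def distTo (K : IdealP) (x : P) : ℝ := Metric.infDist x (sub K : Set P)

/-- The Wijsman topology: the weakest topology making `K ↦ d(x, K)` continuous for all `x`. -/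
instance : TopologicalSpace IdealP := TopologicalSpace.induced distTo inferInstance

/-- The quotient space `P / K`. -/
def Quo (K : Submodule ℂ P) : Type := P ⧸ K

instance instQuoGroup (K : Submodule ℂ P) : AddCommGroup (Quo K) :=
  inferInstanceAs (AddCommGroup (P ⧸ K))

instance instQuoModule (K : Submodule ℂ P) : Module ℂ (Quo K) :=
  inferInstanceAs (Module ℂ (P ⧸ K))

instance instQuoTop (K : Submodule ℂ P) : TopologicalSpace (Quo K) :=
  inferInstanceAs (TopologicalSpace (P ⧸ K))

/-- The quotient map `x ↦ x + K`. -/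
def cls (K : Submodule ℂ P) (x : P) : Quo K := K.mkQ x

/-- `L` is a two-sided ideal of the quotient algebra `P / K`, whose product is
`(a + K) * (x + K) = a * x + K`. -/
def IsQuotientIdeal (K : Submodule ℂ P) (L : Submodule ℂ (Quo K)) : Prop :=
  ∀ a x : P, cls K x ∈ L → cls K (prod a x) ∈ L ∧ cls K (prod x a) ∈ L

/-- The two-sided ideal of `P / K` generated by `b`. -/
def idealGen (K : Submodule ℂ P) (b : Quo K) : Submodule ℂ (Quo K) :=
  sInf {L | IsQuotientIdeal K L ∧ b ∈ L}

/-- The quotient `P / K` is simple: every nonzero element generates a dense ideal. -/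
def QuotientSimple (K : Submodule ℂ P) : Prop :=
  ∀ b : Quo K, b ≠ 0 → Dense (idealGen K b : Set (Quo K))

/-- The set `Simple(P)` of closed ideals `K` with `P / K` simple. -/
def SimpleP : Set IdealP := {K | QuotientSimple (sub K)}

lemma cls_surjective (K : Submodule ℂ P) : Function.Surjective (cls K) := Submodule.mkQ_surjective K

lemma cls_eq_zero {K : Submodule ℂ P} {x : P} : cls K x = 0 ↔ x ∈ K :=
  Submodule.Quotient.mk_eq_zero K

lemma continuous_cls (K : Submodule ℂ P) : Continuous (cls K) :=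
  (continuous_quot_mk : Continuous K.mkQ)

lemma isOpenMap_cls (K : Submodule ℂ P) : IsOpenMap (cls K) := K.isOpenMap_mkQ

/-- The preimage of a subspace of the quotient. -/
def pre {K : Submodule ℂ P} (L : Submodule ℂ (Quo K)) : Submodule ℂ P where
  carrier := {x | cls K x ∈ L}
  add_mem' := fun {x y} hx hy => by
    have h : cls K (x + y) = cls K x + cls K y := map_add K.mkQ x y
    change cls K (x + y) ∈ L
    rw [h]
    exact L.add_mem hx hy
  zero_mem' := by
    change cls K 0 ∈ L
    rw [cls_eq_zero.2 K.zero_mem]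
    exact L.zero_mem
  smul_mem' := fun c x hx => by
    have h : cls K (c • x) = c • cls K x := map_smul K.mkQ c x
    change cls K (c • x) ∈ L
    rw [h]
    exact L.smul_mem c hx

lemma mem_pre {K : Submodule ℂ P} {L : Submodule ℂ (Quo K)} {x : P} :
    x ∈ pre L ↔ cls K x ∈ L := Iff.rfl

/-- The image of a subspace in the quotient. -/
def img (K J : Submodule ℂ P) : Submodule ℂ (Quo K) where
  carrier := cls K '' J
  add_mem' := by
    rintro _ _ ⟨x, hx, rfl⟩ ⟨y, hy, rfl⟩
    exact ⟨x + y, J.add_mem hx hy, map_add K.mkQ x y⟩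
  zero_mem' := ⟨0, J.zero_mem, cls_eq_zero.2 K.zero_mem⟩
  smul_mem' := by
    rintro c _ ⟨x, hx, rfl⟩
    exact ⟨c • x, J.smul_mem c hx, map_smul K.mkQ c x⟩

lemma mem_img {K J : Submodule ℂ P} (h : K ≤ J) {x : P} : cls K x ∈ img K J ↔ x ∈ J := by
  constructor
  · rintro ⟨y, hy, hxy⟩
    have h1 : y - x ∈ K := (Submodule.Quotient.eq K).1 hxy
    have h2 := J.sub_mem hy (h h1)
    rwa [sub_sub_cancel] at h2
  · exact fun hx => ⟨x, hx, rfl⟩

/-! ## The map onto the Munn algebra -/

/-- The enumeration of the generators by pairs of finite sequences. -/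
def en : Ix ≃ ℕ := Denumerable.eqv Ix

/-- The images of the generators. -/
def gen (T : Tree) (n : ℕ) : L1 Ix :=
  if (T.1 (en.symm n).1 && T.1 (en.symm n).2) = true then dl (en.symm n) else 0

/-- The homomorphism from the free semigroup to the Munn algebra. -/
def hom (T : Tree) (w : FreeSemigroup ℕ) : L1 Ix :=
  FreeSemigroup.lift (β := Munn) (fun n => (gen T n : Munn)) w

lemma hom_of (T : Tree) (n : ℕ) : hom T (FreeSemigroup.of n) = gen T n := rfl

lemma hom_mul (T : Tree) (u v : FreeSemigroup ℕ) : hom T (u * v) = mul (hom T u) (hom T v) :=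
  (FreeSemigroup.lift (β := Munn) (fun n => (gen T n : Munn))).map_mul u v

lemma norm_mul_le' (f g : L1 Ix) : ‖mul f g‖ ≤ ‖f‖ * ‖g‖ := norm_bil_le mm norm_mm_le f g

lemma norm_hom_le (T : Tree) (w : FreeSemigroup ℕ) : ‖hom T w‖ ≤ 1 := by
  induction w using FreeSemigroup.recOnMul with
  | ih1 n =>
    rw [hom_of]
    unfold gen
    split_ifs
    · exact (norm_dl _).le
    · simp
  | ih2 n w h1 h2 =>
    rw [hom_mul]
    exact (norm_mul_le' _ _).trans (mul_le_one₀ h1 (norm_nonneg _) h2)

/-- The homomorphism of Banach algebras. -/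
def Phi (T : Tree) : P →L[ℂ] L1 Ix := lift (hom T) (norm_hom_le T)

lemma Phi_dl (T : Tree) (w : FreeSemigroup ℕ) : Phi T (dl w) = hom T w := lift_dl _ _ w

lemma Phi_conv (T : Tree) (f g : P) : Phi T (conv f g) = mul (Phi T f) (Phi T g) := by
  have h1 : ∀ (u : FreeSemigroup ℕ) (g : P),
      Phi T (conv (dl u) g) = mul (Phi T (dl u)) (Phi T g) := by
    intro u g
    refine ext_clm ((Phi T).comp (conv (dl u))) ((mul (Phi T (dl u))).comp (Phi T))
      (fun v => ?_) g
    change Phi T (conv (dl u) (dl v)) = mul (Phi T (dl u)) (Phi T (dl v))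
    rw [conv_dl, Phi_dl, Phi_dl, Phi_dl, hom_mul]
  refine ext_clm ((Phi T).comp (conv.flip g)) ((mul.flip (Phi T g)).comp (Phi T)) (fun u => ?_) f
  exact h1 u g

lemma norm_Phi_le (T : Tree) (f : P) : ‖Phi T f‖ ≤ ‖f‖ := norm_lift_apply_le _ _ f

lemma conv_zero_left (a : P) : conv 0 a = 0 := by rw [map_zero, zero_apply]

lemma mul_zero_left (a : L1 Ix) : mul 0 a = 0 := by rw [map_zero, zero_apply]

/-- The kernel of the homomorphism. -/
def ker (T : Tree) : Submodule ℂ P := LinearMap.ker (Phi T : P →ₗ[ℂ] L1 Ix)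

lemma mem_ker {T : Tree} {x : P} : x ∈ ker T ↔ Phi T x = 0 := Iff.rfl

lemma isClosedIdeal_ker (T : Tree) : IsClosedIdeal (ker T) where
  closed := (Phi T).isClosed_ker
  mul_left := fun a x hx => by
    rw [mem_ker] at hx ⊢
    rw [← conv_eq_prod, Phi_conv, hx, map_zero]
  mul_right := fun a x hx => by
    rw [mem_ker] at hx ⊢
    rw [← conv_eq_prod, Phi_conv, hx, mul_zero_left]

/-- The ideal attached to a tree. -/
def KT (T : Tree) : IdealP := ⟨ker T, isClosedIdeal_ker T⟩

lemma sub_KT (T : Tree) : sub (KT T) = ker T := rfl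

/-! ## Continuity -/

lemma hom_form (T : Tree) (w : FreeSemigroup ℕ) : ∃ (c : ℂ) (s t : List ℕ), T.1 s = true ∧
    T.1 t = true ∧ hom T w = c • dl (s, t) := by
  induction w using FreeSemigroup.recOnMul with
  | ih1 n =>
    rw [hom_of]
    unfold gen
    split_ifs with h
    · rw [Bool.and_eq_true] at h
      exact ⟨1, (en.symm n).1, (en.symm n).2, h.1, h.2, by rw [one_smul]⟩
    · exact ⟨0, [], [], T.2.1, T.2.1, by rw [zero_smul]⟩
  | ih2 n w h1 h2 =>
    obtain ⟨c, s, t, hs, ht, e⟩ := h1
    obtain ⟨c', s', t', hs', ht', e'⟩ := h2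
    refine ⟨c * c' * M t s', s, t', hs, ht', ?_⟩
    rw [hom_mul, e, e', map_smul, map_smul, smul_apply, mul_dl, smul_smul, smul_smul]
    congr 1
    ring

/-- The section. -/
def sec : L1 Ix →L[ℂ] P :=
  lift (fun p => dl (FreeSemigroup.of (en p))) fun _ => (norm_dl _).le

lemma sec_dl (p : Ix) : sec (dl p) = dl (FreeSemigroup.of (en p)) := lift_dl _ _ p

lemma Phi_sec (T : Tree) {s t : List ℕ} (hs : T.1 s = true) (ht : T.1 t = true) :
    Phi T (sec (dl (s, t))) = dl (s, t) := by
  rw [sec_dl, Phi_dl, hom_of]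
  unfold gen
  rw [Equiv.symm_apply_apply, if_pos (by rw [hs, ht]; rfl)]

lemma Phi_sec_Phi (T : Tree) (f : P) : Phi T (sec (Phi T f)) = Phi T f := by
  refine ext_clm ((Phi T).comp (sec.comp (Phi T))) (Phi T) (fun w => ?_) f
  change Phi T (sec (Phi T (dl w))) = Phi T (dl w)
  rw [Phi_dl]
  obtain ⟨c, s, t, hs, ht, e⟩ := hom_form T w
  rw [e, map_smul, map_smul, Phi_sec T hs ht]

lemma infDist_ker (T : Tree) (x : P) : Metric.infDist x (ker T : Set P) = ‖Phi T x‖ := by
  refine le_antisymm ?_ ?_
  · have h1 : x - sec (Phi T x) ∈ ker T := by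
      rw [mem_ker, map_sub, Phi_sec_Phi, sub_self]
    refine (Metric.infDist_le_dist_of_mem h1).trans ?_
    rw [dist_eq_norm, sub_sub_cancel]
    exact norm_lift_apply_le _ _ _
  · rw [Metric.le_infDist ⟨0, (ker T).zero_mem⟩]
    intro k hk
    rw [dist_eq_norm]
    have h2 : Phi T (x - k) = Phi T x := by
      rw [map_sub, mem_ker.1 hk, sub_zero]
    rw [← h2]
    exact norm_Phi_le T _

lemma continuous_coord (s : List ℕ) : Continuous fun T : Tree => T.1 s :=
  (continuous_apply s).comp continuous_subtype_val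

lemma continuous_hom (w : FreeSemigroup ℕ) : Continuous fun T : Tree => hom T w := by
  induction w using FreeSemigroup.recOnMul with
  | ih1 n =>
    have h1 : Continuous fun b : Bool => if b = true then (dl (en.symm n) : L1 Ix) else 0 :=
      continuous_of_discreteTopology
    have h2 : Continuous fun T : Tree => (T.1 (en.symm n).1 && T.1 (en.symm n).2) := by
      have h3 : Continuous fun p : Bool × Bool => (p.1 && p.2) := continuous_of_discreteTopology
      exact h3.comp ((continuous_coord _).prodMk (continuous_coord _))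
    exact h1.comp h2
  | ih2 n w h1 h2 =>
    have h3 : Continuous fun T : Tree => mul (hom T (FreeSemigroup.of n)) (hom T w) :=
      (mul.continuous.comp h1).clm_apply h2
    exact h3.congr fun T => (hom_mul T _ _).symm

lemma continuous_Phi (x : P) : Continuous fun T : Tree => Phi T x := by
  have h : Continuous fun T : Tree => ∑' w, x w • hom T w := by
    have hc : ∀ w, Continuous fun T : Tree => x w • hom T w := fun w => by
      exact (continuous_const_smul (x w)).comp (continuous_hom w)
    refine continuous_tsum hc (summable_norm x) fun w T => ?_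
    rw [norm_smul]
    exact mul_le_of_le_one_right (norm_nonneg _) (norm_hom_le T w)
  exact h

lemma continuous_KT : Continuous KT := by
  refine continuous_induced_rng.2 (continuous_pi fun x => ?_)
  exact (continuous_Phi x).norm.congr fun T => (infDist_ker T x).symm

/-! ## Simplicity for well-founded trees -/

lemma Phi_supp (T : Tree) (x : P) (u v : List ℕ) (h : Phi T x (u, v) ≠ 0) :
    T.1 u = true ∧ T.1 v = true := by
  by_contra hcon
  apply h
  refine ext_clm ((ev (u, v)).comp (Phi T)) 0 (fun w => ?_) x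
  change Phi T (dl w) (u, v) = 0
  rw [Phi_dl]
  obtain ⟨c, s, t, hs, ht, e⟩ := hom_form T w
  rw [e, lp.coeFn_smul, Pi.smul_apply, dl_apply_ne, smul_zero]
  intro h2
  rw [Prod.mk.injEq] at h2
  exact hcon ⟨h2.1 ▸ hs, h2.2 ▸ ht⟩

/-- An ideal containing the kernel and an element outside of the kernel contains all generators. -/
lemma gen_mem {T : Tree} (hT : ¬ HasBranch T) (J : Submodule ℂ P) (hKJ : ker T ≤ J)
    (hJl : ∀ a y : P, y ∈ J → conv a y ∈ J) (hJr : ∀ a y : P, y ∈ J → conv y a ∈ J)
    {x : P} (hxJ : x ∈ J) (hx : Phi T x ≠ 0) (n : ℕ) : dl (FreeSemigroup.of n) ∈ J := by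
  obtain ⟨t, s', ht, hs', hc⟩ : ∃ t s', T.1 t = true ∧ T.1 s' = true ∧
      rowL t (colR s' (Phi T x)) ≠ 0 := by
    by_contra hcon
    push Not at hcon
    exact hx (nondegenerate hT (Phi_supp T x) hcon)
  by_cases h : (T.1 (en.symm n).1 && T.1 (en.symm n).2) = true
  · obtain ⟨h1, h2⟩ := Bool.and_eq_true_iff.1 h
    set c := rowL t (colR s' (Phi T x)) with hcdef
    set z := conv (conv (sec (dl ((en.symm n).1, t))) x) (sec (dl (s', (en.symm n).2))) with hzdef
    have hz : z ∈ J := hJr _ _ (hJl _ _ hxJ)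
    have hPz : Phi T z = c • dl (en.symm n) := by
      rw [hzdef, Phi_conv, Phi_conv, Phi_sec T h1 ht, Phi_sec T hs' h2, key_formula]
    have hd : Phi T (dl (FreeSemigroup.of n)) = dl (en.symm n) := by
      rw [Phi_dl, hom_of]
      unfold gen
      rw [if_pos h]
    have h3 : c • (dl (FreeSemigroup.of n) : P) - z ∈ J := by
      apply hKJ
      rw [mem_ker, map_sub, map_smul, hPz, hd, sub_self]
    have h4 := J.add_mem h3 hz
    rw [sub_add_cancel] at h4
    have h5 := J.smul_mem c⁻¹ h4
    rwa [smul_smul, inv_mul_cancel₀ hc, one_smul] at h5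
  · apply hKJ
    rw [mem_ker, Phi_dl, hom_of]
    unfold gen
    rw [if_neg h]

lemma dense_of_gen (J : Submodule ℂ P) (hJl : ∀ a y : P, y ∈ J → conv a y ∈ J)
    (hgen : ∀ n, dl (FreeSemigroup.of n) ∈ J) : Dense (J : Set P) := by
  have hword : ∀ w : FreeSemigroup ℕ, dl w ∈ J := by
    intro w
    induction w using FreeSemigroup.recOnMul with
    | ih1 n => exact hgen n
    | ih2 n w h1 h2 =>
      have h3 := hJl (dl (FreeSemigroup.of n)) _ h2
      rw [conv_dl] at h3
      exact h3
  intro f
  exact mem_closure_of_tendsto (hasSum_dl f) (Eventually.of_forall fun s =>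
    J.sum_mem fun w _ => J.smul_mem _ (hword w))

lemma isQuotientIdeal_idealGen (K : Submodule ℂ P) (b : Quo K) :
    IsQuotientIdeal K (idealGen K b) := by
  intro a x hx
  unfold idealGen at hx ⊢
  rw [Submodule.mem_sInf] at hx
  constructor
  · rw [Submodule.mem_sInf]
    exact fun L' hL' => (hL'.1 a x (hx L' hL')).1
  · rw [Submodule.mem_sInf]
    exact fun L' hL' => (hL'.1 a x (hx L' hL')).2

lemma mem_idealGen (K : Submodule ℂ P) (b : Quo K) : b ∈ idealGen K b := by
  unfold idealGen
  rw [Submodule.mem_sInf]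
  exact fun L' hL' => hL'.2

lemma quotientSimple_of_wf {T : Tree} (hT : ¬ HasBranch T) : QuotientSimple (ker T) := by
  intro b hb
  obtain ⟨x, rfl⟩ := cls_surjective (ker T) b
  have hx : Phi T x ≠ 0 := fun h => hb (cls_eq_zero.2 (mem_ker.2 h))
  set L := idealGen (ker T) (cls (ker T) x) with hL
  have hid : IsQuotientIdeal (ker T) L := isQuotientIdeal_idealGen _ _
  have hKJ : ker T ≤ pre L := by
    intro y hy
    rw [mem_pre, cls_eq_zero.2 hy]
    exact L.zero_mem
  have hJl : ∀ a y : P, y ∈ pre L → conv a y ∈ pre L := fun a y hy => by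
    rw [conv_eq_prod]
    exact (hid a y hy).1
  have hJr : ∀ a y : P, y ∈ pre L → conv y a ∈ pre L := fun a y hy => by
    rw [conv_eq_prod]
    exact (hid a y hy).2
  have hxJ : x ∈ pre L := mem_idealGen _ _
  have hdense := dense_of_gen _ hJl (gen_mem hT _ hKJ hJl hJr hxJ hx)
  have h6 : Dense (cls (ker T) '' (pre L : Set P)) :=
    (cls_surjective (ker T)).denseRange.dense_image (continuous_cls _) hdense
  refine h6.mono ?_
  rintro _ ⟨y, hy, rfl⟩
  exact hy

/-! ## Non-simplicity for ill-founded trees -/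

/-- The vector of a branch in the Munn algebra. -/
def bv (b : ℕ → List ℕ) : L1 ℕ →L[ℂ] L1 Ix := lift (fun n => dl (b n, [])) fun _ => (norm_dl _).le

lemma bv_dl (b : ℕ → List ℕ) (n : ℕ) : bv b (dl n) = dl (b n, []) := lift_dl _ _ _

/-- The vector of a branch. -/
def bl (b : ℕ → List ℕ) : L1 ℕ →L[ℂ] L1 (List ℕ) := lift (fun n => dl (b n)) fun _ => (norm_dl _).le

lemma bl_dl (b : ℕ → List ℕ) (n : ℕ) : bl b (dl n) = dl (b n) := lift_dl _ _ _

lemma rowL_dl (t u : List ℕ) : rowL t (dl u) = M t u := lift_dl _ _ _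

lemma rowL_bl (t : List ℕ) (b : ℕ → List ℕ) (g : L1 ℕ) :
    rowL t (bl b g) = ∑' n, g n • M t (b n) := by
  have h : HasSum (fun n => rowL t (bl b (g n • dl n))) (rowL t (bl b g)) :=
    (hasSum_dl g).mapL ((rowL t).comp (bl b))
  rw [← h.tsum_eq]
  refine tsum_congr fun n => ?_
  rw [map_smul, map_smul, bl_dl, rowL_dl]

lemma mul_bv (s t : List ℕ) (b : ℕ → List ℕ) (g : L1 ℕ) :
    mul (dl (s, t)) (bv b g) = rowL t (bl b g) • dl (s, []) := by
  refine ext_clm ((mul (dl (s, t))).comp (bv b)) (((rowL t).comp (bl b)).smulRight (dl (s, [])))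
    (fun n => ?_) g
  change mul (dl (s, t)) (bv b (dl n)) = rowL t (bl b (dl n)) • dl (s, [])
  rw [bv_dl, bl_dl, rowL_dl, mul_dl]

lemma exists_annihilated {T : Tree} (hT : HasBranch T) : ∃ x : P, Phi T x ≠ 0 ∧
    ∀ y : L1 Ix, mul y (Phi T x) = 0 := by
  obtain ⟨b, hb0, hb⟩ := hT
  have hF : Phi T (sec (bv b geo)) = bv b geo := by
    refine ext_clm ((Phi T).comp (sec.comp (bv b))) (bv b) (fun n => ?_) geo
    change Phi T (sec (bv b (dl n))) = bv b (dl n)
    rw [bv_dl, Phi_sec T (hb n).1 T.2.1]
  refine ⟨sec (bv b geo), ?_, ?_⟩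
  · rw [hF]
    intro h
    have h1 : ev (([] : List ℕ), ([] : List ℕ)) (bv b geo) = ev 0 geo := by
      refine ext_clm ((ev (([] : List ℕ), ([] : List ℕ))).comp (bv b)) (ev 0) (fun n => ?_) geo
      change ev (([] : List ℕ), ([] : List ℕ)) (bv b (dl n)) = ev 0 (dl n)
      rw [bv_dl, ev_apply, ev_apply]
      cases n with
      | zero => rw [hb0, dl_apply_self, dl_apply_self]
      | succ n =>
        obtain ⟨k, hk⟩ := (hb n).2
        rw [dl_apply_ne (by rw [hk]; simp), dl_apply_ne (by simp)]
    rw [h, map_zero, ev_apply, geo_apply, pow_zero] at h1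
    exact zero_ne_one h1
  · intro y
    rw [hF]
    refine ext_clm (mul.flip (bv b geo)) 0 ?_ y
    rintro ⟨s, t⟩
    change mul (dl (s, t)) (bv b geo) = 0
    rw [mul_bv, rowL_bl, branch_sum hb0 (fun n => (hb n).2) t, zero_smul]

/-- The annihilated ideal. -/
def ann (T : Tree) : Submodule ℂ P where
  carrier := {y | ∀ u v : P, Phi T (conv (conv u y) v) = 0}
  add_mem' := by
    intro y z hy hz u v
    rw [map_add, map_add, add_apply, map_add, hy u v, hz u v, add_zero]
  zero_mem' := by
    intro u v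
    rw [map_zero, conv_zero_left, map_zero]
  smul_mem' := by
    intro c y hy u v
    rw [map_smul, map_smul, smul_apply, map_smul, hy u v, smul_zero]

lemma mem_ann {T : Tree} {y : P} :
    y ∈ ann T ↔ ∀ u v : P, Phi T (conv (conv u y) v) = 0 := Iff.rfl

lemma ker_le_ann (T : Tree) : ker T ≤ ann T := by
  intro y hy u v
  rw [Phi_conv, Phi_conv, mem_ker.1 hy, map_zero, mul_zero_left]

lemma isClosed_ann (T : Tree) : IsClosed (ann T : Set P) := by
  have e : (ann T : Set P) = ⋂ (u : P) (v : P), {y | Phi T (conv (conv u y) v) = 0} := by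
    ext y
    simp only [mem_iInter]
    rfl
  rw [e]
  refine isClosed_iInter fun u => isClosed_iInter fun v => ?_
  have hc : Continuous fun y => Phi T (conv.flip v (conv u y)) :=
    ((Phi T).comp ((conv.flip v).comp (conv u))).continuous
  exact isClosed_eq hc continuous_const

lemma isQuotientIdeal_ann (T : Tree) : IsQuotientIdeal (ker T) (img (ker T) (ann T)) := by
  intro a y hy
  rw [mem_img (ker_le_ann T)] at hy
  rw [mem_img (ker_le_ann T), mem_img (ker_le_ann T), ← conv_eq_prod, ← conv_eq_prod]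
  constructor
  · intro u v
    rw [← conv_assoc]
    exact hy (conv u a) v
  · intro u v
    rw [← conv_assoc, conv_assoc _ a v]
    exact hy u (conv a v)

lemma root_notMem (T : Tree) : sec (dl (([] : List ℕ), ([] : List ℕ))) ∉ ann T := by
  intro h
  have h1 := h (sec (dl (([] : List ℕ), ([] : List ℕ)))) (sec (dl (([] : List ℕ), ([] : List ℕ))))
  rw [Phi_conv, Phi_conv, Phi_sec T T.2.1 T.2.1, mul_dl, map_smul, smul_apply, mul_dl, M_self,
    smul_smul] at h1
  have h2 := congrArg (fun f : L1 Ix => ev (([] : List ℕ), ([] : List ℕ)) f) h1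
  change ev (([] : List ℕ), ([] : List ℕ)) ((1 / 4 * (1 / 4) : ℂ) •
    dl (([] : List ℕ), ([] : List ℕ))) = ev (([] : List ℕ), ([] : List ℕ)) 0 at h2
  rw [map_smul, map_zero, ev_apply, dl_apply_self] at h2
  norm_num at h2

lemma not_quotientSimple_of_branch {T : Tree} (hT : HasBranch T) :
    ¬ QuotientSimple (ker T) := by
  intro hsimple
  obtain ⟨x, hx, hann⟩ := exists_annihilated hT
  have hxJ : x ∈ ann T := by
    intro u v
    rw [Phi_conv, Phi_conv, hann, mul_zero_left]
  have hb : cls (ker T) x ≠ 0 := fun h => hx (mem_ker.1 (cls_eq_zero.1 h))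
  have hdense := hsimple (cls (ker T) x) hb
  have hle : idealGen (ker T) (cls (ker T) x) ≤ img (ker T) (ann T) :=
    sInf_le ⟨isQuotientIdeal_ann T, (mem_img (ker_le_ann T)).2 hxJ⟩
  have hdense2 : Dense (img (ker T) (ann T) : Set (Quo (ker T))) := hdense.mono hle
  have hopen : IsOpen (cls (ker T) '' (ann T : Set P)ᶜ) :=
    isOpenMap_cls _ _ (isClosed_ann T).isOpen_compl
  obtain ⟨z, hz1, hz2⟩ := hdense2.inter_open_nonempty _ hopen ⟨_, _, root_notMem T, rfl⟩
  obtain ⟨y, hy, rfl⟩ := hz1
  exact hy ((mem_img (ker_le_ann T)).1 hz2)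

lemma KT_mem_iff (T : Tree) : KT T ∈ SimpleP ↔ ¬ HasBranch T :=
  ⟨fun h1 h2 => not_quotientSimple_of_branch h2 h1, quotientSimple_of_wf⟩

/-! ## Finite and infinite subsets -/

/-- The tree of strictly increasing finite sequences in the set with characteristic function `x`. -/
def incTree (x : ℕ → Bool) : Tree :=
  ⟨fun s => decide (s.Pairwise (· > ·)) && s.all x, by
    refine ⟨by simp, fun n s h => ?_⟩
    rw [Bool.and_eq_true, decide_eq_true_iff, List.pairwise_cons, List.all_cons,
      Bool.and_eq_true] at h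
    rw [Bool.and_eq_true, decide_eq_true_iff]
    exact ⟨h.1.2, h.2.2⟩⟩

lemma incTree_apply (x : ℕ → Bool) (s : List ℕ) :
    (incTree x).1 s = true ↔ s.Pairwise (· > ·) ∧ ∀ k ∈ s, x k = true := by
  change (decide (s.Pairwise (· > ·)) && s.all x) = true ↔ _
  rw [Bool.and_eq_true, decide_eq_true_iff, List.all_eq_true]

lemma continuous_incTree : Continuous incTree := by
  refine Continuous.subtype_mk (continuous_pi fun s => ?_) _
  have h1 : Continuous fun x : ℕ → Bool => s.all x := by
    induction s with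
    | nil => exact continuous_const
    | cons k s ih =>
      have h3 : Continuous fun p : Bool × Bool => (p.1 && p.2) := continuous_of_discreteTopology
      exact h3.comp ((continuous_apply k).prodMk ih)
  have h2 : Continuous fun b : Bool => (decide (s.Pairwise (· > ·)) && b) :=
    continuous_of_discreteTopology
  exact h2.comp h1

lemma hasBranch_incTree (x : ℕ → Bool) :
    HasBranch (incTree x) ↔ {k | x k = true}.Infinite := by
  constructor
  · rintro ⟨b, hb0, hb⟩ hfin
    have hlen : ∀ n, (b n).length = n := by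
      intro n
      induction n with
      | zero => rw [hb0]; rfl
      | succ n ih =>
        obtain ⟨k, hk⟩ := (hb n).2
        rw [hk, List.length_cons, ih]
    set F := hfin.toFinset with hF
    obtain ⟨h1, h2⟩ := (incTree_apply x _).1 (hb (F.card + 1)).1
    have hnd : (b (F.card + 1)).Nodup := h1.imp fun h => ne_of_gt h
    have hsub : (b (F.card + 1)).toFinset ⊆ F := by
      intro k hk
      rw [List.mem_toFinset] at hk
      rw [hF, Finite.mem_toFinset]
      exact h2 k hk
    have hcard := Finset.card_le_card hsub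
    rw [List.toFinset_card_of_nodup hnd, hlen] at hcard
    omega
  · intro hinf
    let p : ℕ → ℕ := Nat.nth fun k => x k = true
    have hp1 : ∀ n, x (p n) = true := fun n => Nat.nth_mem_of_infinite hinf n
    have hp2 : StrictMono p := Nat.nth_strictMono hinf
    let b : ℕ → List ℕ := fun n => Nat.rec [] (fun n w => p n :: w) n
    have hbs : ∀ n, b (n + 1) = p n :: b n := fun n => rfl
    have hmem : ∀ n, ∀ k ∈ b n, ∃ i < n, k = p i := by
      intro n
      induction n with
      | zero =>
        intro k hk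
        exact absurd hk (by simp [b])
      | succ n ih =>
        intro k hk
        rw [hbs, List.mem_cons] at hk
        rcases hk with rfl | hk
        · exact ⟨n, Nat.lt_succ_self n, rfl⟩
        · obtain ⟨i, hi, rfl⟩ := ih k hk
          exact ⟨i, by omega, rfl⟩
    have hT : ∀ n, (incTree x).1 (b n) = true := by
      intro n
      rw [incTree_apply]
      refine ⟨?_, fun k hk => ?_⟩
      · induction n with
        | zero => exact List.Pairwise.nil
        | succ n ih =>
          rw [hbs, List.pairwise_cons]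
          refine ⟨fun k hk => ?_, ih⟩
          obtain ⟨i, hi, rfl⟩ := hmem n k hk
          exact hp2 hi
      · obtain ⟨i, _, rfl⟩ := hmem n k hk
        exact hp1 i
    exact ⟨b, rfl, fun n => ⟨hT n, p n, rfl⟩⟩

lemma not_isGδ_finite : ¬ IsGδ {x : ℕ → Bool | {k | x k = true}.Finite} := by
  intro h
  have hinfG : IsGδ {x : ℕ → Bool | {k | x k = true}.Infinite} := by
    have e : {x : ℕ → Bool | {k | x k = true}.Infinite} =
        ⋂ n : ℕ, ⋃ m : ℕ, {x : ℕ → Bool | n ≤ m ∧ x m = true} := by
      ext x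
      rw [mem_iInter]
      constructor
      · intro hx n
        obtain ⟨m, hm, hnm⟩ := hx.exists_gt n
        exact mem_iUnion.2 ⟨m, hnm.le, hm⟩
      · intro hx hfin
        obtain ⟨N, hN⟩ := hfin.bddAbove
        obtain ⟨m, hm1, hm2⟩ := mem_iUnion.1 (hx (N + 1))
        have h3 : m ≤ N := hN hm2
        omega
    rw [e]
    refine IsGδ.iInter_of_isOpen fun n => isOpen_iUnion fun m => ?_
    by_cases hnm : n ≤ m
    · have e2 : {x : ℕ → Bool | n ≤ m ∧ x m = true} = (fun x : ℕ → Bool => x m) ⁻¹' {true} := by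
        ext x
        exact ⟨fun h => h.2, fun h => ⟨hnm, h⟩⟩
      rw [e2]
      exact (isOpen_discrete _).preimage (continuous_apply m)
    · have e2 : {x : ℕ → Bool | n ≤ m ∧ x m = true} = ∅ := by
        ext x
        exact ⟨fun h => absurd h.1 hnm, fun h => absurd h (notMem_empty _)⟩
      rw [e2]
      exact isOpen_empty
  have hd : ∀ c : Bool, ∀ x : ℕ → Bool, ∀ U : Set (ℕ → Bool), IsOpen U → x ∈ U →
      ∃ I : Finset ℕ, (fun n => if n ∈ I then x n else c) ∈ U := by
    intro c x U hU hx
    obtain ⟨I, u, hu, hIU⟩ := isOpen_pi_iff.1 hU x hx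
    refine ⟨I, hIU fun i hi => ?_⟩
    change (if i ∈ I then x i else c) ∈ u i
    rw [if_pos (by exact_mod_cast hi)]
    exact (hu i (by exact_mod_cast hi)).2
  have hfinD : Dense {x : ℕ → Bool | {k | x k = true}.Finite} := by
    rw [dense_iff_inter_open]
    rintro U hU ⟨x, hx⟩
    obtain ⟨I, hI⟩ := hd false x U hU hx
    refine ⟨_, hI, I.finite_toSet.subset fun k hk => ?_⟩
    by_contra hkI
    have h2 : (if k ∈ I then x k else false) = true := hk
    rw [if_neg (by exact_mod_cast hkI)] at h2
    exact Bool.false_ne_true h2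
  have hinfD : Dense {x : ℕ → Bool | {k | x k = true}.Infinite} := by
    rw [dense_iff_inter_open]
    rintro U hU ⟨x, hx⟩
    obtain ⟨I, hI⟩ := hd true x U hU hx
    refine ⟨_, hI, (I.finite_toSet.infinite_compl).mono fun k hk => ?_⟩
    change (if k ∈ I then x k else true) = true
    rw [if_neg (by exact_mod_cast hk)]
  obtain ⟨x, hx1, hx2⟩ := (hfinD.inter_of_Gδ h hinfG hinfD).nonempty
  exact hx2 hx1

/-- **Theorem.** Let `P = ℓ₁(S)` with the convolution product `prod`, an associative and
submultiplicative product. There is a continuous map `K` from the space of trees on `ℕ` to the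
space of closed ideals of `P` with the Wijsman topology such that `P / K T` is simple if and only
if `T` has no infinite branch. Moreover the set `Simple(P)` is not `G_δ`. -/
theorem result :
    ((∀ f g h : P, prod (prod f g) h = prod f (prod g h)) ∧ ∀ f g : P, ‖prod f g‖ ≤ ‖f‖ * ‖g‖) ∧
    (∃ K : Tree → IdealP, Continuous K ∧ ∀ T, K T ∈ SimpleP ↔ ¬ HasBranch T) ∧
    ¬ IsGδ SimpleP := by
  refine ⟨⟨fun f g h => ?_, fun f g => ?_⟩, ⟨KT, continuous_KT, KT_mem_iff⟩, fun hG => ?_⟩
  · simp only [← conv_eq_prod]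
    exact conv_assoc f g h
  · rw [← conv_eq_prod]
    exact norm_conv_le f g
  have h1 := hG.preimage (continuous_KT.comp continuous_incTree)
  have h2 : (KT ∘ incTree) ⁻¹' SimpleP = {x : ℕ → Bool | {k | x k = true}.Finite} := by
    ext x
    rw [mem_preimage, Function.comp_apply, KT_mem_iff, hasBranch_incTree, Set.not_infinite]
    rfl
  rw [h2] at h1
  exact not_isGδ_finite h1

end

end Pool.Agent.Results.MP_2e14e4_lc.SimpleNotGdelta
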